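import Pool.Agent.MPfa412c.Final

/-!
# `L²`-torsion is not continuous along normal chains

There are a group `G`, a normal chain `N` in `G` and a connected regular `G`-covering of a closed
`3`-manifold such that this covering and all its quotients by the `N k` are of determinant class,
the covering and its quotients for `k ≥ 1` are `L²`-acyclic, and the `L²`-torsions of the quotients
do not converge to the `L²`-torsion of the covering. In the proof `G` is the integral Heisenberg
group.
-/

open Filter Topology

namespace Pool.Agent.Results.MP_fa412c_gt.TorsionApproxFails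

open Pool.Agent.MPfa412c

/-- There are a group `G`, a normal chain `N`, a closed triangulated `3`-manifold `K` with one
vertex and a `G`-valued cocycle `γ` on `K` describing a connected regular covering `M` with group `G`, such that
`M` and all the quotients `M / N k` are of determinant class, `M` and the `M / N k` with `k ≥ 1` are
`L²`-acyclic, and the `L²`-torsion of `M / N k` over `G / N k` does not converge to the `L²`-torsion
of `M` over `G`: the latter is at most `-2 log 2`, the former at least `-log (11 / 3)`. -/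
theorem result : ∃ (G : Type) (_ : Group G) (N : ℕ → Subgroup G) (_ : ∀ k, (N k).Normal)
    (K : Delta) (_ : ∀ p, Fintype (K.X p)) (_ : ∀ p, DecidableEq (K.X p)) (γ : K.X 1 → G),
    N 0 = ⊤ ∧ Antitone N ∧ ⨅ k, N k = ⊥ ∧
    K.IsClosed3Manifold ∧ Nat.card (K.X 0) = 1 ∧ K.IsCocycle γ ∧
    Subgroup.closure (Set.range γ) = ⊤ ∧
    K.DetClass γ ∧ (∀ k, K.DetClass (fun e => (γ e : G ⧸ N k))) ∧
    K.Acyclic γ ∧ (∀ k, 1 ≤ k → K.Acyclic (fun e => (γ e : G ⧸ N k))) ∧
    K.torsion γ ≤ -(2 * Real.log 2) ∧
    (∀ k, 1 ≤ k → -Real.log (11 / 3) ≤ K.torsion (fun e => (γ e : G ⧸ N k))) ∧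
    ¬ Tendsto (fun k => K.torsion (fun e => (γ e : G ⧸ N k))) atTop (𝓝 (K.torsion γ)) := by
  have hG := Model.torsion_K goodG
  have hG1 : Model.K.torsion Model.γ ≤ -(2 * Real.log 2) := by
    have h1 : Model.K.torsion Model.γ = -2 * goodG.dA := hG.2.2
    have h2 : Real.log 2 ≤ goodG.dA := G_lower.2
    rw [h1]
    linarith
  have hQ : ∀ k, 1 ≤ k → Model.K.Acyclic (fun e => (Model.γ e : G3 ⧸ NN k)) ∧
      Model.K.DetClass (fun e => (Model.γ e : G3 ⧸ NN k)) ∧
      -Real.log (11 / 3) ≤ Model.K.torsion (fun e => (Model.γ e : G3 ⧸ NN k)) := by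
    intro k hk
    have hk' : k ≠ 0 := by omega
    have h1 := Model.torsion_K (goodQ hk')
    have h2 : (goodQ hk').dA ≤ 1 / 2 * Real.log (11 / 3) := (Q_upper hk').2
    refine ⟨h1.1, h1.2.1, ?_⟩
    have h3 : Model.K.torsion (fun e => (Model.γ e : G3 ⧸ NN k)) = -2 * (goodQ hk').dA := h1.2.2
    rw [h3]
    linarith
  refine ⟨G3, inferInstance, NN, inferInstance, Model.K, inferInstance, inferInstance, Model.γ,
    NN_zero, NN_antitone, NN_inf, Model.isClosed3Manifold, Nat.card_fin 1, Model.cocycle,
    Model.closure_range, hG.2.1, ?_,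
    hG.1, fun k hk => (hQ k hk).1, hG1, fun k hk => (hQ k hk).2.2, ?_⟩
  · intro k
    rcases Nat.eq_zero_or_pos k with hk | hk
    · subst hk
      have : Subsingleton (G3 ⧸ NN 0) := by
        refine ⟨fun a b => ?_⟩
        obtain ⟨a, rfl⟩ := QuotientGroup.mk_surjective a
        obtain ⟨b, rfl⟩ := QuotientGroup.mk_surjective b
        rw [QuotientGroup.eq, NN_zero]
        exact Subgroup.mem_top _
      exact Delta.detClass_of_subsingleton _ _
    · exact (hQ k hk).2.1
  · intro h
    have h1 : -Real.log (11 / 3) ≤ Model.K.torsion Model.γ := by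
      refine ge_of_tendsto h ?_
      filter_upwards [eventually_ge_atTop 1] with k hk
      exact (hQ k hk).2.2
    have h2 : Real.log (11 / 3) < Real.log (2 ^ 2) :=
      Real.log_lt_log (by norm_num) (by norm_num)
    rw [Real.log_pow] at h2
    push_cast at h2
    linarith

end Pool.Agent.Results.MP_fa412c_gt.TorsionApproxFails
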